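import Pool.Agent.H174R2.UL.Main

set_option autoImplicit false

namespace Pool.Agent.Results.MP_699f60_co.UniquelyLocalizable

open Pool.Agent.H135R2.Planar Pool.Agent.H174R2.UL

/-- If `v` is uniquely localizable in the finite simple graph `G` relative to `P` (in the plane),
then `|P| ≥ 3` and `G + K(P)` has an `R_2`-component `H` which contains `P ∪ {v}` and satisfies
`κ_H(v, b) ≥ 3` for every `b ∈ P`. -/
theorem result {V : Type*} [Finite V] [DecidableEq V] (G : SimpleGraph V) (P : Set V) (v : V)
    (hv : v ∉ P) (h : UniquelyLocalizable G P v) :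
    3 ≤ P.ncard ∧ ∃ (H : (addClique G P).Subgraph) (hvH : v ∈ H.verts),
      IsR2Component (addClique G P) H ∧
        ∀ b ∈ P, ∃ hb : b ∈ H.verts, HasDisjointPaths H.coe 3 ⟨v, hvH⟩ ⟨b, hb⟩ := by
  have := Fintype.ofFinite V
  exact main G P hv h

end Pool.Agent.Results.MP_699f60_co.UniquelyLocalizable
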